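import Mathlib

/-!
# Every finite connected graph is a confluent image of a vertex-transitive one

Graphs are reflexive and symmetric relations.  Let `H` be a finite connected graph with a vertex
`v₀`.  The group `Γ` generated by the transpositions `(a b)` over all edges `ab` of `H` carries the
graph in which `g` is adjacent to `(a b) g` for every edge `ab`.  It is connected, right
multiplications make it vertex-transitive, and `g ↦ g v₀` is a homomorphism onto `H` such that every
edge `ab` of `H` lifts at every `g` over `a` (to `(a b) g`); this makes it confluent.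
-/

set_option autoImplicit false

universe u

namespace Pool.Agent.Results.MP_be9f3f_co.HomogeneousCover

/-- A graph with vertex set `V`: a reflexive and symmetric edge relation. -/
structure Graph (V : Type u) where
  /-- the edge relation -/
  edge : V → V → Prop
  refl : ∀ a, edge a a
  symm : ∀ a b, edge a b → edge b a

variable {V W : Type u}

/-- A set `S` of vertices is connected if it is not the union of two nonempty parts with no edge
between them. -/
def Graph.IsConn (A : Graph V) (S : Set V) : Prop :=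
  ¬ ∃ P Q : Set V, P.Nonempty ∧ Q.Nonempty ∧ P ∪ Q = S ∧ ∀ p ∈ P, ∀ q ∈ Q, ¬ A.edge p q

/-- `C` is a component of `S`: a maximal connected subset of `S`. -/
def Graph.IsComponent (A : Graph V) (S C : Set V) : Prop :=
  Maximal (fun T => T ⊆ S ∧ A.IsConn T) C

/-- An epimorphism: a homomorphism which is surjective on vertices and on edges. -/
structure IsEpi (A : Graph V) (B : Graph W) (f : V → W) : Prop where
  hom : ∀ a b, A.edge a b → B.edge (f a) (f b)
  surj : ∀ c, ∃ a, f a = c
  surjEdge : ∀ c d, B.edge c d → ∃ a b, A.edge a b ∧ f a = c ∧ f b = d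

/-- An isomorphism: an injective epimorphism. -/
def IsIso (A : Graph V) (B : Graph W) (f : V → W) : Prop := IsEpi A B f ∧ Function.Injective f

/-- A homogeneous (vertex-transitive) graph. -/
def Graph.Homogeneous (A : Graph V) : Prop := ∀ x y, ∃ f : V → V, IsIso A A f ∧ f x = y

/-- A confluent epimorphism: every component of the preimage of a connected set `Q` is mapped onto
`Q`. -/
def IsConfluent (A : Graph V) (B : Graph W) (f : V → W) : Prop :=
  IsEpi A B f ∧ ∀ Q : Set W, B.IsConn Q → ∀ C : Set V, A.IsComponent (f ⁻¹' Q) C → f '' C = Q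

lemma Graph.IsConn.insert {A : Graph V} {C : Set V} (hC : A.IsConn C) {x y : V} (hx : x ∈ C)
    (hxy : A.edge x y) : A.IsConn (insert y C) := by
  rintro ⟨P, Q, hP, hQ, hPQ, hno⟩
  have hyx := A.symm _ _ hxy
  have hy : y ∈ P ∪ Q := by rw [hPQ]; exact Set.mem_insert _ _
  have hxm : x ∈ P ∪ Q := by rw [hPQ]; exact Set.mem_insert_of_mem _ hx
  -- restrict the splitting to `C`
  have key : ∀ P Q : Set V, P.Nonempty → Q.Nonempty → P ∪ Q = Insert.insert y C →
      (∀ p ∈ P, ∀ q ∈ Q, ¬ A.edge p q) → x ∈ P → False := by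
    intro P Q hP hQ hPQ hno hxP
    have hyQ : y ∉ Q := fun h => hno x hxP y h hxy
    have hyP : y ∈ P := by
      have : y ∈ P ∪ Q := by rw [hPQ]; exact Set.mem_insert _ _
      exact this.resolve_right hyQ
    refine hC ⟨P ∩ C, Q, ⟨x, hxP, hx⟩, hQ, ?_, fun p hp q hq => hno p hp.1 q hq⟩
    ext z
    constructor
    · rintro (hz | hz)
      · exact hz.2
      · have : z ∈ Insert.insert y C := by rw [← hPQ]; exact Or.inr hz
        rcases this with rfl | h
        · exact absurd hz hyQ
        · exact h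
    · intro hz
      have : z ∈ P ∪ Q := by rw [hPQ]; exact Set.mem_insert_of_mem _ hz
      rcases this with h | h
      · exact Or.inl ⟨h, hz⟩
      · exact Or.inr h
  rcases hxm with h | h
  · exact key P Q hP hQ hPQ hno h
  · exact key Q P hQ hP (by rw [Set.union_comm]; exact hPQ)
      (fun p hp q hq h' => hno q hq p hp (A.symm _ _ h')) h

/-- If every edge of `H` lifts at every vertex over its first end, then `f` is confluent. -/
lemma confluent_of_lift {G : Graph V} {H : Graph W} {f : V → W} (hf : IsEpi G H f)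
    (hl : ∀ g b, H.edge (f g) b → ∃ g', G.edge g g' ∧ f g' = b) : IsConfluent G H f := by
  refine ⟨hf, fun Q hQ C hC => ?_⟩
  obtain ⟨⟨hCQ, hCc⟩, hmax⟩ := hC
  have hsub : f '' C ⊆ Q := by
    rintro _ ⟨c, hc, rfl⟩
    exact hCQ hc
  by_contra hne
  have hdiff : (Q \ f '' C).Nonempty := by
    rw [Set.nonempty_iff_ne_empty]
    intro h
    rw [Set.sdiff_eq_empty] at h
    exact hne (subset_antisymm hsub h)
  have hCne : C.Nonempty := by
    by_contra hC0
    rw [Set.not_nonempty_iff_eq_empty] at hC0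
    obtain ⟨q, hq, -⟩ := hdiff
    obtain ⟨g, hg⟩ := hf.surj q
    have h1 : ({g} : Set V) ⊆ C := by
      apply hmax
      · refine ⟨?_, ?_⟩
        · rintro _ rfl
          change f _ ∈ Q
          rw [hg]
          exact hq
        · rintro ⟨P, P', ⟨p, hp⟩, ⟨p', hp'⟩, hPP, hno⟩
          have h2 : p ∈ ({g} : Set V) := by rw [← hPP]; exact Or.inl hp
          have h3 : p' ∈ ({g} : Set V) := by rw [← hPP]; exact Or.inr hp'
          rw [Set.mem_singleton_iff] at h2 h3
          subst h2
          subst h3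
          exact hno _ hp _ hp' (G.refl _)
      · rw [hC0]
        exact Set.empty_subset _
    rw [hC0] at h1
    exact h1 rfl
  apply hQ
  refine ⟨f '' C, Q \ f '' C, hCne.image f, hdiff, Set.union_sdiff_cancel hsub, ?_⟩
  rintro _ ⟨c, hc, rfl⟩ b hb he
  obtain ⟨g', hg1, hg2⟩ := hl c b he
  apply hb.2
  refine ⟨g', ?_, hg2⟩
  have h1 : insert g' C ⊆ C := by
    apply hmax
    · refine ⟨?_, hCc.insert hc hg1⟩
      rintro z (rfl | hz)
      · change f z ∈ Q
        rw [hg2]
        exact hb.1
      · exact hCQ hz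
    · exact Set.subset_insert _ _
  exact h1 (Set.mem_insert _ _)

section Cayley

open Classical

/-- The group generated by the transpositions over the edges of `H`. -/
noncomputable def grp (H : Graph W) : Subgroup (Equiv.Perm W) :=
  Subgroup.closure {s | ∃ a b, H.edge a b ∧ s = Equiv.swap a b}

/-- The Cayley graph on `grp H`. -/
noncomputable def cay (H : Graph W) : Graph (grp H) where
  edge g g' := g' = g ∨ ∃ a b, H.edge a b ∧ (g' : Equiv.Perm W) = Equiv.swap a b * g
  refl g := Or.inl rfl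
  symm := by
    rintro g g' (h | ⟨a, b, hab, h⟩)
    · exact Or.inl h.symm
    · refine Or.inr ⟨a, b, hab, ?_⟩
      rw [h, Equiv.swap_mul_self_mul]

lemma cay_homogeneous (H : Graph W) : (cay H).Homogeneous := by
  intro x y
  refine ⟨fun g => g * (x⁻¹ * y), ⟨⟨?_, ?_, ?_⟩, ?_⟩, by group⟩
  · rintro g g' (h | ⟨a, b, hab, h⟩)
    · exact Or.inl (by rw [h])
    · refine Or.inr ⟨a, b, hab, ?_⟩
      simp only [Subgroup.coe_mul, h, mul_assoc]
  · intro c
    exact ⟨c * (x⁻¹ * y)⁻¹, by group⟩
  · rintro g g' (h | ⟨a, b, hab, h⟩)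
    · exact ⟨g * (x⁻¹ * y)⁻¹, g' * (x⁻¹ * y)⁻¹, Or.inl (by rw [h]), by group, by group⟩
    · refine ⟨g * (x⁻¹ * y)⁻¹, g' * (x⁻¹ * y)⁻¹, Or.inr ⟨a, b, hab, ?_⟩, by group, by group⟩
      rw [Subgroup.coe_mul, Subgroup.coe_mul, h, mul_assoc]
  · intro g g' h
    exact mul_right_cancel h

lemma cay_conn (H : Graph W) : (cay H).IsConn Set.univ := by
  rintro ⟨P, Q, ⟨p, hp⟩, ⟨q, hq⟩, hPQ, hno⟩
  -- `P` is closed under left multiplication by the generators
  have hstep : ∀ a b, (hab : H.edge a b) → ∀ g ∈ P,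
      (⟨Equiv.swap a b, Subgroup.subset_closure ⟨a, b, hab, rfl⟩⟩ : grp H) * g ∈ P := by
    intro a b hab g hg
    have h1 : (⟨Equiv.swap a b, Subgroup.subset_closure ⟨a, b, hab, rfl⟩⟩ : grp H) * g ∈ P ∪ Q := by
      rw [hPQ]; trivial
    refine h1.resolve_right fun h2 => hno g hg _ h2 (Or.inr ⟨a, b, hab, rfl⟩)
  have hall : ∀ s (hs : s ∈ grp H), ∀ g, (⟨s, hs⟩ : grp H) * g ∈ P ↔ g ∈ P := by
    intro s hs
    induction hs using Subgroup.closure_induction with
    | mem x hx =>
      obtain ⟨a, b, hab, rfl⟩ := hx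
      intro g
      refine ⟨fun h => ?_, hstep a b hab g⟩
      have h1 := hstep a b hab _ h
      rwa [← mul_assoc, show (⟨Equiv.swap a b, Subgroup.subset_closure ⟨a, b, hab, rfl⟩⟩ : grp H) *
        ⟨Equiv.swap a b, Subgroup.subset_closure ⟨a, b, hab, rfl⟩⟩ = 1 from
        Subtype.ext (Equiv.swap_mul_self a b), one_mul] at h1
    | one =>
      intro g
      have : (⟨1, (grp H).one_mem⟩ : grp H) * g = g := one_mul g
      rw [this]
    | mul x y hx hy ihx ihy =>
      intro g
      have : (⟨x * y, (grp H).mul_mem hx hy⟩ : grp H) * g = ⟨x, hx⟩ * (⟨y, hy⟩ * g) :=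
        mul_assoc (⟨x, hx⟩ : grp H) ⟨y, hy⟩ g
      rw [this, ihx, ihy]
    | inv x hx ihx =>
      intro g
      rw [← ihx]
      have : (⟨x, hx⟩ : grp H) * (⟨x⁻¹, (grp H).inv_mem hx⟩ * g) = g :=
        mul_inv_cancel_left (⟨x, hx⟩ : grp H) g
      rw [this]
  have h1 := (hall (q * p⁻¹ : grp H) (q * p⁻¹ : grp H).2 p).2 hp
  have h2 : (⟨((q * p⁻¹ : grp H) : Equiv.Perm W), (q * p⁻¹ : grp H).2⟩ : grp H) * p = q := by
    have : (⟨((q * p⁻¹ : grp H) : Equiv.Perm W), (q * p⁻¹ : grp H).2⟩ : grp H) = q * p⁻¹ := rfl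
    rw [this]
    group
  rw [h2] at h1
  exact hno q h1 q hq ((cay H).refl q)

lemma cay_lift (H : Graph W) (v : W) (g : grp H) (b : W)
    (h : H.edge ((g : Equiv.Perm W) v) b) :
    ∃ g' : grp H, (cay H).edge g g' ∧ (g' : Equiv.Perm W) v = b := by
  refine ⟨⟨Equiv.swap ((g : Equiv.Perm W) v) b, Subgroup.subset_closure ⟨_, _, h, rfl⟩⟩ * g,
    Or.inr ⟨_, _, h, rfl⟩, ?_⟩
  simp

lemma cay_epi (H : Graph W) (hH : H.IsConn Set.univ) (v : W) :
    IsEpi (cay H) H (fun g => (g : Equiv.Perm W) v) := by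
  have hsurj : ∀ c, ∃ g : grp H, (g : Equiv.Perm W) v = c := by
    by_contra hc
    push Not at hc
    obtain ⟨c, hc⟩ := hc
    apply hH
    refine ⟨Set.range (fun g : grp H => (g : Equiv.Perm W) v),
      (Set.range (fun g : grp H => (g : Equiv.Perm W) v))ᶜ, ⟨v, 1, rfl⟩, ⟨c, ?_⟩,
      Set.union_compl_self _, ?_⟩
    · rintro ⟨g, hg⟩
      exact hc g hg
    · rintro _ ⟨g, rfl⟩ b hb he
      obtain ⟨g', -, hg'⟩ := cay_lift H v g b he
      exact hb ⟨g', hg'⟩
  refine ⟨?_, hsurj, ?_⟩
  · rintro g g' (rfl | ⟨a, b, hab, h⟩)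
    · exact H.refl _
    · simp only [h, Equiv.Perm.mul_apply]
      by_cases ha : (g : Equiv.Perm W) v = a
      · rw [ha, Equiv.swap_apply_left]
        exact hab
      · by_cases hb : (g : Equiv.Perm W) v = b
        · rw [hb, Equiv.swap_apply_right]
          exact H.symm _ _ hab
        · rw [Equiv.swap_apply_of_ne_of_ne ha hb]
          exact H.refl _
  · intro c d hcd
    obtain ⟨g, hg⟩ := hsurj c
    obtain ⟨g', h1, h2⟩ := cay_lift H v g d (by rw [hg]; exact hcd)
    exact ⟨g, g', h1, hg, h2⟩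

end Cayley

/-- **Main result.**  Every finite connected graph `H` is the image of a finite connected
homogeneous graph `G` under a confluent epimorphism. -/
theorem result (W : Type u) [Finite W] (H : Graph W) (hH : H.IsConn Set.univ) :
    ∃ (V : Type u) (_ : Finite V) (G : Graph V) (f : V → W),
      G.IsConn Set.univ ∧ G.Homogeneous ∧ IsConfluent G H f := by
  classical
  rcases isEmpty_or_nonempty W with hW | ⟨⟨v⟩⟩
  · refine ⟨W, inferInstance, H, id, hH, fun x => (hW.false x).elim, ?_⟩
    refine ⟨⟨fun a => (hW.false a).elim, fun a => (hW.false a).elim,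
      fun a => (hW.false a).elim⟩, fun Q _ C _ => ?_⟩
    ext x
    exact (hW.false x).elim
  · exact ⟨grp H, inferInstance, cay H, fun g => (g : Equiv.Perm W) v, cay_conn H,
      cay_homogeneous H, confluent_of_lift (cay_epi H hH v) (cay_lift H v)⟩

end Pool.Agent.Results.MP_be9f3f_co.HomogeneousCover
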